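import Mathlib

/-! The greedy planar sign walk `z_n = z_{n-1} + ε_n e^{2 π i α n}`. -/

namespace Q67.GreedyWalk

/-- the unit vector `e^{2 π i α n}` -/
noncomputable def dir (α : ℝ) (n : ℕ) : ℂ :=
  Complex.exp (2 * (Real.pi : ℂ) * Complex.I * (α : ℂ) * (n : ℂ))

/-- `pos α z n` is the point `z_{n-1}` of the walk started at `z_{-1} = z`. -/
noncomputable def pos (α : ℝ) (z : ℂ) : ℕ → ℂ
  | 0 => z
  | n + 1 =>
    if ‖pos α z n + dir α n‖ < ‖pos α z n - dir α n‖
    then pos α z n + dir α n else pos α z n - dir α n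

/-- the sign `ε_n`, the one that makes `|z_{n-1} ± e^{2 π i α n}|` smaller -/
noncomputable def sgn (α : ℝ) (z : ℂ) (n : ℕ) : ℤ :=
  if ‖pos α z n + dir α n‖ < ‖pos α z n - dir α n‖ then 1 else -1

/-- no tie ever occurs -/
def Admissible (α : ℝ) (z : ℂ) : Prop :=
  ∀ n, ‖pos α z n + dir α n‖ ≠ ‖pos α z n - dir α n‖

/-- `p ≥ 1` and the sequence satisfies `s (n + p) = s n` for all large `n` -/
def IsEventualPeriod (s : ℕ → ℤ) (p : ℕ) : Prop :=
  1 ≤ p ∧ ∃ N, ∀ n ≥ N, s (n + p) = s n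

theorem pos_succ (α : ℝ) (z : ℂ) (n : ℕ) :
    pos α z (n + 1) = pos α z n + (sgn α z n : ℂ) * dir α n := by
  rw [pos, sgn]
  split_ifs <;> push_cast <;> ring

theorem norm_dir (α : ℝ) (n : ℕ) : ‖dir α n‖ = 1 := by
  have : 2 * (Real.pi : ℂ) * Complex.I * (α : ℂ) * (n : ℂ)
      = ((2 * Real.pi * α * n : ℝ) : ℂ) * Complex.I := by push_cast; ring
  rw [dir, this, Complex.norm_exp_ofReal_mul_I]

theorem dir_zero (α : ℝ) : dir α 0 = 1 := by simp [dir]

theorem dir_succ (α : ℝ) (n : ℕ) :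
    dir α (n + 1) = dir α n * Complex.exp (2 * (Real.pi : ℂ) * Complex.I * (α : ℂ)) := by
  rw [dir, dir, ← Complex.exp_add]
  congr 1
  push_cast; ring

theorem norm_add_one_lt_iff (w : ℂ) : ‖w + 1‖ < ‖w - 1‖ ↔ w.re < 0 := by
  rw [← sq_lt_sq₀ (norm_nonneg _) (norm_nonneg _), ← Complex.normSq_eq_norm_sq,
    ← Complex.normSq_eq_norm_sq, Complex.normSq_apply, Complex.normSq_apply]
  simp only [Complex.add_re, Complex.sub_re, Complex.add_im, Complex.sub_im, Complex.one_re,
    Complex.one_im]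
  constructor <;> intro h <;> nlinarith

theorem norm_add_one_eq_iff (w : ℂ) : ‖w + 1‖ = ‖w - 1‖ ↔ w.re = 0 := by
  rw [← sq_eq_sq₀ (norm_nonneg _) (norm_nonneg _), ← Complex.normSq_eq_norm_sq,
    ← Complex.normSq_eq_norm_sq, Complex.normSq_apply, Complex.normSq_apply]
  simp only [Complex.add_re, Complex.sub_re, Complex.add_im, Complex.sub_im, Complex.one_re,
    Complex.one_im]
  constructor <;> intro h <;> nlinarith

/-- Orbits of the rotated system give orbits of the walk. -/
theorem of_orbit (α : ℝ) (q : ℂ) (hq : q * Complex.exp (2 * (Real.pi : ℂ) * Complex.I * (α : ℂ)) = 1)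
    (W : ℕ → ℂ) (s : ℕ → ℤ) (hs : ∀ n, s n = 1 ∨ s n = -1)
    (hW : ∀ n, W (n + 1) = (W n + (s n : ℂ)) * q)
    (hsgn : ∀ n, (W n).re * (s n : ℝ) < 0) :
    Admissible α (W 0) ∧ ∀ n, sgn α (W 0) n = s n := by
  have key : ∀ n, pos α (W 0) n = W n * dir α n → sgn α (W 0) n = s n := by
    intro n hn
    have e1 : ‖pos α (W 0) n + dir α n‖ = ‖W n + 1‖ := by
      rw [hn, show W n * dir α n + dir α n = (W n + 1) * dir α n by ring, norm_mul, norm_dir,
        mul_one]
    have e2 : ‖pos α (W 0) n - dir α n‖ = ‖W n - 1‖ := by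
      rw [hn, show W n * dir α n - dir α n = (W n - 1) * dir α n by ring, norm_mul, norm_dir,
        mul_one]
    rw [sgn, e1, e2]
    have h := hsgn n
    rcases hs n with h1 | h1
    · rw [h1] at h ⊢
      rw [if_pos]
      rw [norm_add_one_lt_iff]
      push_cast at h; linarith
    · rw [h1] at h ⊢
      rw [if_neg]
      rw [norm_add_one_lt_iff]
      push_cast at h; linarith
  have hpos : ∀ n, pos α (W 0) n = W n * dir α n := by
    intro n
    induction n with
    | zero => simp [pos, dir_zero]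
    | succ n ih =>
      rw [pos_succ, key n ih, ih, hW n, dir_succ]
      linear_combination (-(W n + (s n : ℂ)) * dir α n) * hq
  refine ⟨?_, fun n => key n (hpos n)⟩
  intro n h
  rw [hpos n, show W n * dir α n + dir α n = (W n + 1) * dir α n by ring,
    show W n * dir α n - dir α n = (W n - 1) * dir α n by ring, norm_mul, norm_mul, norm_dir,
    mul_one, mul_one, norm_add_one_eq_iff] at h
  have := hsgn n
  rw [h] at this
  simp at this

end Q67.GreedyWalk
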