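import Mathlib
import Pool.Agent.Q67.GreedyWalk

/-! A family of antisymmetric periodic sign sequences near `α = 1/9`. -/

namespace Q67.GreedyFamily

open Q67.GreedyWalk

/-- half of the code -/
def e (N j : ℕ) : ℤ :=
  if j < 3 * N + 2 then (if j % 3 = 0 then 1 else -1) else (if j = 3 * N + 3 then -1 else 1)

/-- the code -/
def s (N n : ℕ) : ℤ := (-1) ^ (n / (3 * N + 5)) * e N (n % (3 * N + 5))

noncomputable def Wc (q w : ℂ) (N : ℕ) : ℕ → ℂ
  | 0 => w
  | j + 1 => (Wc q w N j + (e N j : ℂ)) * q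

noncomputable def W (q w : ℂ) (N n : ℕ) : ℂ :=
  (-1) ^ (n / (3 * N + 5)) * Wc q w N (n % (3 * N + 5))

theorem e_cases (N j : ℕ) : e N j = 1 ∨ e N j = -1 := by
  unfold e; split_ifs <;> simp

theorem s_cases (N n : ℕ) : s N n = 1 ∨ s N n = -1 := by
  unfold s
  rcases e_cases N (n % (3 * N + 5)) with h | h <;>
    rcases neg_one_pow_eq_or ℤ (n / (3 * N + 5)) with h' | h' <;> rw [h, h'] <;> simp

theorem W_step (q w : ℂ) (N : ℕ) (hw : Wc q w N (3 * N + 5) = -w) (n : ℕ) :
    W q w N (n + 1) = (W q w N n + (s N n : ℂ)) * q := by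
  obtain ⟨m, r, hr, hn⟩ : ∃ m r, r < 3 * N + 5 ∧ n = (3 * N + 5) * m + r :=
    ⟨n / (3 * N + 5), n % (3 * N + 5), Nat.mod_lt _ (by omega), (Nat.div_add_mod _ _).symm⟩
  have h1 : n / (3 * N + 5) = m := by
    rw [hn, Nat.mul_add_div (by omega), Nat.div_eq_of_lt hr, add_zero]
  have h2 : n % (3 * N + 5) = r := by
    rw [hn, Nat.mul_add_mod, Nat.mod_eq_of_lt hr]
  unfold W s
  rw [h1, h2]
  by_cases hlt : r + 1 < 3 * N + 5
  · have h3 : (n + 1) / (3 * N + 5) = m := by
      rw [hn, add_assoc, Nat.mul_add_div (by omega), Nat.div_eq_of_lt hlt, add_zero]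
    have h4 : (n + 1) % (3 * N + 5) = r + 1 := by
      rw [hn, add_assoc, Nat.mul_add_mod, Nat.mod_eq_of_lt hlt]
    rw [h3, h4, Wc]
    push_cast; ring
  · have hr' : r = 3 * N + 4 := by omega
    have h3 : (n + 1) / (3 * N + 5) = m + 1 := by
      rw [hn, hr', show (3 * N + 5) * m + (3 * N + 4) + 1 = (3 * N + 5) * (m + 1) by ring,
        Nat.mul_div_cancel_left _ (by omega)]
    have h4 : (n + 1) % (3 * N + 5) = 0 := by
      rw [hn, hr', show (3 * N + 5) * m + (3 * N + 4) + 1 = (3 * N + 5) * (m + 1) by ring,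
        Nat.mul_mod_right]
    rw [h3, h4, hr']
    have h5 : Wc q w N (3 * N + 5) = (Wc q w N (3 * N + 4) + (e N (3 * N + 4) : ℂ)) * q := rfl
    rw [hw] at h5
    have h6 : Wc q w N 0 = w := rfl
    rw [h6]
    push_cast
    rw [pow_succ]
    linear_combination ((-1 : ℂ) ^ m) * h5

theorem sgn_W (q w : ℂ) (N : ℕ)
    (h : ∀ j < 3 * N + 5, (Wc q w N j).re * (e N j : ℝ) < 0) (n : ℕ) :
    (W q w N n).re * (s N n : ℝ) < 0 := by
  have hj := h (n % (3 * N + 5)) (Nat.mod_lt _ (by omega))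
  unfold W s
  rcases neg_one_pow_eq_or ℤ (n / (3 * N + 5)) with h' | h'
  · have h'' : (-1 : ℂ) ^ (n / (3 * N + 5)) = 1 := by exact_mod_cast h'
    rw [h', h'']
    simpa using hj
  · have h'' : (-1 : ℂ) ^ (n / (3 * N + 5)) = -1 := by exact_mod_cast h'
    rw [h', h'']
    simpa using hj

theorem admissible (α : ℝ) (q w : ℂ) (N : ℕ)
    (hq : q * Complex.exp (2 * (Real.pi : ℂ) * Complex.I * (α : ℂ)) = 1)
    (hw : Wc q w N (3 * N + 5) = -w)
    (h : ∀ j < 3 * N + 5, (Wc q w N j).re * (e N j : ℝ) < 0) :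
    Admissible α w ∧ ∀ n, sgn α w n = s N n := by
  have := of_orbit α q hq (W q w N) (s N) (s_cases N) (W_step q w N hw) (sgn_W q w N h)
  have h0 : W q w N 0 = w := by simp [W, Wc]
  rwa [h0] at this

theorem s_periodic (N n : ℕ) : s N (n + 2 * (3 * N + 5)) = s N n := by
  unfold s
  rw [show n + 2 * (3 * N + 5) = n + (3 * N + 5) * 2 by ring, Nat.add_mul_div_left _ _ (by omega),
    Nat.add_mul_mod_self_left, pow_add]
  norm_num

theorem s_periodic' (N n M : ℕ) : s N (2 * (3 * N + 5) * M + n) = s N n := by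
  induction M with
  | zero => simp
  | succ M ih =>
    rw [← ih, ← s_periodic N (2 * (3 * N + 5) * M + n)]
    congr 1; ring

theorem s_small (N j : ℕ) (h : j < 3 * N + 5) : s N j = e N j := by
  unfold s
  rw [Nat.div_eq_of_lt h, Nat.mod_eq_of_lt h]; simp

/-- every eventual period is large -/
theorem period_large (N p : ℕ) (hN : 1 ≤ N) (h : IsEventualPeriod (s N) p) : 3 * N ≤ p := by
  obtain ⟨hp, M, hM⟩ := h
  by_contra hlt
  push Not at hlt
  set B := 2 * (3 * N + 5) * M with hB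
  have hBM : M ≤ B := by rw [hB]; nlinarith
  have e1 : s N (B + (3 * N + 2)) = s N (B + (3 * N + 2 - p)) := by
    have := hM (B + (3 * N + 2 - p)) (by omega)
    rw [← this]; congr 1; omega
  have e2 : s N (B + (3 * N - 1)) = s N (B + (3 * N - 1 - p)) := by
    have := hM (B + (3 * N - 1 - p)) (by omega)
    rw [← this]; congr 1; omega
  rw [hB, s_periodic', s_periodic', s_small _ _ (by omega), s_small _ _ (by omega)] at e1 e2
  have e3 : e N (3 * N + 2 - p) = e N (3 * N - 1 - p) := by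
    have hm : (3 * N + 2 - p) % 3 = (3 * N - 1 - p) % 3 := by omega
    have h1 : 3 * N + 2 - p < 3 * N + 2 := by omega
    have h2 : 3 * N - 1 - p < 3 * N + 2 := by omega
    unfold e
    rw [if_pos h1, if_pos h2, hm]
  have e4 : e N (3 * N + 2) = 1 := by
    unfold e; rw [if_neg (by omega), if_neg (by omega)]
  have e5 : e N (3 * N - 1) = -1 := by
    unfold e; rw [if_pos (by omega), if_neg (by omega)]
  rw [e4, e3] at e1
  rw [e5] at e2
  omega

end Q67.GreedyFamily
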