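import Mathlib
import Pool.Agent.Q67.GreedyFamily

/-! The half orbit in closed form, and the sign conditions. -/

namespace Q67.GreedyFamily

open Q67.GreedyWalk Complex

noncomputable def c2 (q : ℂ) : ℂ := (-q ^ 3 + q ^ 2 - q) / (1 - q ^ 3)
noncomputable def c0 (q : ℂ) : ℂ := (c2 q - 1) * q
noncomputable def c1 (q : ℂ) : ℂ := (c0 q + 1) * q
noncomputable def bf (q : ℂ) : ℂ := (q ^ 4 - q ^ 5 - c2 q * (q ^ 5 + q ^ 3)) / 2
noncomputable def af (q : ℂ) : ℂ := bf q / q ^ 5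
noncomputable def uf (q : ℂ) (T : ℝ) : ℂ := c2 q + af q * (1 + T * I)
noncomputable def wf (q : ℂ) (T : ℝ) : ℂ := -q ^ 3 * (uf q T + 1) + q ^ 2 - q

theorem c2_fix {q : ℂ} (h3 : 1 - q ^ 3 ≠ 0) : (c1 q - 1) * q = c2 q := by
  have : c2 q * (1 - q ^ 3) = -q ^ 3 + q ^ 2 - q := by
    unfold c2; field_simp
  unfold c1 c0
  linear_combination -this

theorem v_eq {q : ℂ} {T : ℝ} (hq : q ≠ 0) :
    q ^ 2 * (wf q T - c0 q) = bf q * (1 - T * I) := by
  have ha : af q * q ^ 5 = bf q := by unfold af; field_simp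
  have hb : 2 * bf q = q ^ 4 - q ^ 5 - c2 q * (q ^ 5 + q ^ 3) := by unfold bf; ring
  unfold wf uf c0
  linear_combination (-(1 + T * I)) * ha - hb

theorem e_0 (N i : ℕ) (h : i ≤ N) : e N (3 * i) = 1 := by
  unfold e; rw [if_pos (by omega), if_pos (by omega)]

theorem e_1 (N i : ℕ) (h : i ≤ N) : e N (3 * i + 1) = -1 := by
  unfold e; rw [if_pos (by omega), if_neg (by omega)]

theorem e_2 (N i : ℕ) (h : i < N) : e N (3 * i + 2) = -1 := by
  unfold e; rw [if_pos (by omega), if_neg (by omega)]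

theorem e_3 (N : ℕ) : e N (3 * N + 2) = 1 := by
  unfold e; rw [if_neg (by omega), if_neg (by omega)]

theorem e_4 (N : ℕ) : e N (3 * N + 3) = -1 := by
  unfold e; rw [if_neg (by omega), if_pos (by omega)]

theorem e_5 (N : ℕ) : e N (3 * N + 4) = 1 := by
  unfold e; rw [if_neg (by omega), if_neg (by omega)]

theorem Wc_0 {q w : ℂ} (N : ℕ) (h3 : 1 - q ^ 3 ≠ 0) (i : ℕ) (hi : i ≤ N) :
    Wc q w N (3 * i) = c0 q + q ^ (3 * i) * (w - c0 q) := by
  induction i with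
  | zero => simp [Wc]
  | succ i ih =>
    have ih := ih (by omega)
    have h1 : Wc q w N (3 * i + 1) = (Wc q w N (3 * i) + (e N (3 * i) : ℂ)) * q := rfl
    have h2 : Wc q w N (3 * i + 2) = (Wc q w N (3 * i + 1) + (e N (3 * i + 1) : ℂ)) * q := rfl
    have h4 : Wc q w N (3 * i + 3) = (Wc q w N (3 * i + 2) + (e N (3 * i + 2) : ℂ)) * q := rfl
    rw [e_0 N i (by omega)] at h1
    rw [e_1 N i (by omega)] at h2
    rw [e_2 N i (by omega)] at h4
    rw [show 3 * (i + 1) = 3 * i + 3 by ring, h4, h2, h1, ih]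
    have hf := c2_fix h3
    have h0 : c0 q = (c2 q - 1) * q := rfl
    have h10 : c1 q = (c0 q + 1) * q := rfl
    push_cast
    rw [pow_add]
    rw [← hf, h10] at h0
    linear_combination -h0

theorem Wc_1 {q w : ℂ} (N : ℕ) (h3 : 1 - q ^ 3 ≠ 0) (i : ℕ) (hi : i ≤ N) :
    Wc q w N (3 * i + 1) = c1 q + q ^ (3 * i) * (q * (w - c0 q)) := by
  have h1 : Wc q w N (3 * i + 1) = (Wc q w N (3 * i) + (e N (3 * i) : ℂ)) * q := rfl
  rw [h1, Wc_0 N h3 i hi, e_0 N i hi]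
  unfold c1
  push_cast
  ring

theorem Wc_2 {q w : ℂ} (N : ℕ) (h3 : 1 - q ^ 3 ≠ 0) (i : ℕ) (hi : i ≤ N) :
    Wc q w N (3 * i + 2) = c2 q + q ^ (3 * i) * (q ^ 2 * (w - c0 q)) := by
  have h1 : Wc q w N (3 * i + 2) = (Wc q w N (3 * i + 1) + (e N (3 * i + 1) : ℂ)) * q := rfl
  rw [h1, Wc_1 N h3 i hi, e_1 N i hi, ← c2_fix h3]
  push_cast
  ring

theorem U_eq {q : ℂ} {T : ℝ} {k : ℕ} (hq : q ≠ 0)
    (hT : q ^ (9 * k + 8) * (1 - T * I) = 1 + T * I) :
    q ^ (3 * (3 * k + 1)) * (bf q * (1 - T * I)) = af q * (1 + T * I) := by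
  have ha : af q * q ^ 5 = bf q := by unfold af; field_simp
  rw [← ha, ← hT, show 9 * k + 8 = 3 * (3 * k + 1) + 5 by ring, pow_add]
  ring

theorem Wc_end {q : ℂ} {T : ℝ} {k : ℕ} (hq : q ≠ 0) (h3 : 1 - q ^ 3 ≠ 0)
    (hT : q ^ (9 * k + 8) * (1 - T * I) = 1 + T * I) :
    Wc q (wf q T) (3 * k + 1) (3 * (3 * k + 1) + 2) = uf q T ∧
    Wc q (wf q T) (3 * k + 1) (3 * (3 * k + 1) + 3) = (uf q T + 1) * q ∧
    Wc q (wf q T) (3 * k + 1) (3 * (3 * k + 1) + 4) = ((uf q T + 1) * q - 1) * q ∧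
    Wc q (wf q T) (3 * k + 1) (3 * (3 * k + 1) + 5) = - wf q T := by
  set N := 3 * k + 1 with hN
  have h1 : Wc q (wf q T) N (3 * N + 2) = uf q T := by
    rw [Wc_2 N h3 N le_rfl, v_eq hq, hN, U_eq hq hT]; rfl
  have h2 : Wc q (wf q T) N (3 * N + 3)
      = (Wc q (wf q T) N (3 * N + 2) + (e N (3 * N + 2) : ℂ)) * q := rfl
  have h4 : Wc q (wf q T) N (3 * N + 4)
      = (Wc q (wf q T) N (3 * N + 3) + (e N (3 * N + 3) : ℂ)) * q := rfl
  have h5 : Wc q (wf q T) N (3 * N + 5)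
      = (Wc q (wf q T) N (3 * N + 4) + (e N (3 * N + 4) : ℂ)) * q := rfl
  rw [h1, e_3] at h2
  rw [h2, e_4] at h4
  rw [h4, e_5] at h5
  refine ⟨h1, ?_, ?_, ?_⟩
  · rw [h2]; push_cast; ring
  · rw [h4]; push_cast; ring
  · rw [h5]; unfold wf; push_cast; ring

/-- numerical enclosures valid near `q = e^{-2 π i / 9}` -/
structure Good (q : ℂ) : Prop where
  q0 : q ≠ 0
  q3 : 1 - q ^ 3 ≠ 0
  c0r : (c0 q).re < -0.4
  c1r : 0.8 < (c1 q).re
  c2r : 0.104 < (c2 q).re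
  c2r' : (c2 q).re < 0.106
  c2i : 0.28 < (c2 q).im
  c2i' : (c2 q).im < 0.30
  br : -0.002 < (bf q).re
  br' : (bf q).re < 0.002
  bi : -0.108 < (bf q).im
  bi' : (bf q).im < -0.105
  ar : -0.038 < (af q).re
  ar' : (af q).re < -0.035
  ai : 0.099 < (af q).im
  ai' : (af q).im < 0.1015
  zr : 0.09 < (q ^ 6 * bf q).re
  zr' : (q ^ 6 * bf q).re < 0.095
  zi : 0.05 < (q ^ 6 * bf q).im
  zi' : (q ^ 6 * bf q).im < 0.056
  qr : 0.76 < q.re
  qr' : q.re < 0.77
  qi : -0.65 < q.im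
  qi' : q.im < -0.64

theorem re_one_add (z : ℂ) (T : ℝ) : (z * (1 + T * I)).re = z.re - T * z.im := by
  simp; ring

theorem im_one_add (z : ℂ) (T : ℝ) : (z * (1 + T * I)).im = z.im + T * z.re := by
  simp; ring

theorem re_one_sub (z : ℂ) (T : ℝ) : (z * (1 - T * I)).re = z.re + T * z.im := by
  simp; ring

theorem im_one_sub (z : ℂ) (T : ℝ) : (z * (1 - T * I)).im = z.im - T * z.re := by
  simp; ring

theorem norm_v {q : ℂ} (g : Good q) {T : ℝ} (hT0 : 0.6 ≤ T) (hT1 : T ≤ 0.8) :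
    ‖bf q * (1 - T * I)‖ ≤ 0.2 := by
  have h : ‖bf q * (1 - T * I)‖ ^ 2 ≤ 0.2 ^ 2 := by
    rw [← Complex.normSq_eq_norm_sq, Complex.normSq_apply, re_one_sub, im_one_sub]
    have h1 := g.br; have h2 := g.br'; have h3 := g.bi; have h4 := g.bi'
    have e1 : (bf q).re ^ 2 ≤ 0.002 ^ 2 := by nlinarith
    have e2 : (bf q).im ^ 2 ≤ 0.108 ^ 2 := by nlinarith
    have e3 : ((bf q).re + T * (bf q).im) * ((bf q).re + T * (bf q).im) +
      ((bf q).im - T * (bf q).re) * ((bf q).im - T * (bf q).re)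
      = (1 + T ^ 2) * ((bf q).re ^ 2 + (bf q).im ^ 2) := by ring
    rw [e3]
    nlinarith [sq_nonneg (bf q).re, sq_nonneg (bf q).im]
  nlinarith [norm_nonneg (bf q * (1 - T * I))]

theorem re_abs_le (z : ℂ) : -‖z‖ ≤ z.re ∧ z.re ≤ ‖z‖ := abs_le.mp (Complex.abs_re_le_norm z)

theorem q9m {q : ℂ} {η : ℝ} (h9 : q ^ 9 = Complex.exp (η * I)) (m : ℕ) :
    q ^ (9 * m) = (Real.cos (m * η) : ℂ) + (Real.sin (m * η) : ℂ) * I := by
  rw [pow_mul, h9, ← Complex.exp_nat_mul]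
  rw [show (m : ℂ) * (η * I) = ((m * η : ℝ) : ℂ) * I by push_cast; ring, Complex.exp_mul_I]
  push_cast; ring

theorem re_rot (θ : ℝ) (z : ℂ) :
    (((Real.cos θ : ℂ) + (Real.sin θ : ℂ) * I) * z).re = Real.cos θ * z.re - Real.sin θ * z.im := by
  rw [Complex.mul_re]
  simp [Complex.cos_ofReal_re, Complex.sin_ofReal_re]

theorem prod_bounds {x y a b c d : ℝ} (ha : 0 ≤ a) (hc : 0 ≤ c) (h1 : a ≤ x) (h2 : x ≤ b)
    (h3 : c ≤ y) (h4 : y ≤ d) : a * c ≤ x * y ∧ x * y ≤ b * d :=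
  ⟨mul_le_mul h1 h3 hc (ha.trans h1), mul_le_mul h2 h4 (hc.trans h3) (ha.trans (h1.trans h2))⟩

theorem tail_num {q : ℂ} (g : Good q) {T : ℝ} (hT0 : 0.6 ≤ T) (hT1 : T ≤ 0.8) :
    0 < ((uf q T + 1) * q).re ∧ (((uf q T + 1) * q - 1) * q).re < 0 := by
  have hur : (uf q T).re = (c2 q).re + ((af q).re - T * (af q).im) := by
    unfold uf; rw [Complex.add_re, re_one_add]
  have hui : (uf q T).im = (c2 q).im + ((af q).im + T * (af q).re) := by
    unfold uf; rw [Complex.add_im, im_one_add]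
  obtain ⟨p1, p2⟩ := prod_bounds (x := T) (y := (af q).im) (by norm_num) (by norm_num) hT0 hT1
    g.ai.le g.ai'.le
  obtain ⟨p3, p4⟩ := prod_bounds (x := T) (y := -(af q).re) (c := 0.035) (d := 0.038)
    (by norm_num) (by norm_num) hT0 hT1 (by linarith [g.ar']) (by linarith [g.ar])
  have g1 := g.ar; have g2 := g.ar'; have g3 := g.ai; have g4 := g.ai'
  have g0 := g.c2r
  have g5 := g.c2r'; have g6 := g.c2i; have g7 := g.c2i'
  have g8 := g.qr; have g9 := g.qr'; have g10 := g.qi; have g11 := g.qi'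
  norm_num at p1 p2 p3 p4
  have hur1 : -0.02 ≤ (uf q T).re := by rw [hur]; linarith
  have hur2 : (uf q T).re ≤ 0.02 := by rw [hur]; linarith
  have hui1 : 0.34 ≤ (uf q T).im := by rw [hui]; linarith
  have hui2 : (uf q T).im ≤ 0.39 := by rw [hui]; linarith
  have hx : ((uf q T + 1) * q).re = ((uf q T).re + 1) * q.re + (uf q T).im * (-q.im) := by
    simp [Complex.mul_re]; ring
  have hy : -((uf q T + 1) * q).im = ((uf q T).re + 1) * (-q.im) - (uf q T).im * q.re := by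
    simp [Complex.mul_im]; ring
  obtain ⟨r1, r2⟩ := prod_bounds (x := (uf q T).re + 1) (y := q.re) (a := 0.98) (b := 1.02)
    (by norm_num) (by norm_num) (by linarith) (by linarith) g8.le g9.le
  obtain ⟨r3, r4⟩ := prod_bounds (x := (uf q T).im) (y := -q.im) (a := 0.34) (b := 0.39)
    (c := 0.64) (d := 0.65)
    (by norm_num) (by norm_num) (by linarith) (by linarith) (by linarith) (by linarith)
  obtain ⟨r5, r6⟩ := prod_bounds (x := (uf q T).re + 1) (y := -q.im) (a := 0.98) (b := 1.02)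
    (c := 0.64) (d := 0.65)
    (by norm_num) (by norm_num) (by linarith) (by linarith) (by linarith) (by linarith)
  obtain ⟨r7, r8⟩ := prod_bounds (x := (uf q T).im) (y := q.re) (a := 0.34) (b := 0.39)
    (by norm_num) (by norm_num) (by linarith) (by linarith) g8.le g9.le
  norm_num at r1 r2 r3 r4 r5 r6 r7 r8
  have hx0 : 0.9 ≤ ((uf q T + 1) * q).re := by rw [hx]; linarith
  have hx1 : ((uf q T + 1) * q).re ≤ 1.05 := by rw [hx]; linarith
  have hy1 : 0.3 ≤ -((uf q T + 1) * q).im := by rw [hy]; linarith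
  have hy2 : -((uf q T + 1) * q).im ≤ 0.5 := by rw [hy]; linarith
  refine ⟨by linarith, ?_⟩
  have hz : (((uf q T + 1) * q - 1) * q).re
      = ((uf q T + 1) * q).re * q.re - q.re - (-((uf q T + 1) * q).im) * (-q.im) := by
    rw [Complex.mul_re, Complex.sub_re, Complex.sub_im, Complex.one_re, Complex.one_im]; ring
  rw [hz]
  clear hz hx hy
  generalize ((uf q T + 1) * q).re = X at hx0 hx1 ⊢
  generalize ((uf q T + 1) * q).im = Y at hy1 hy2 ⊢
  obtain ⟨t1, t2⟩ := prod_bounds (x := X) (y := q.re)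
    (by norm_num) (by norm_num) hx0 hx1 g8.le g9.le
  obtain ⟨t3, t4⟩ := prod_bounds (x := -Y) (y := -q.im)
    (c := 0.64) (d := 0.65)
    (by norm_num) (by norm_num) hy1 hy2 (by linarith) (by linarith)
  linarith

theorem real1 {c vr vi C S : ℝ} (hv : -c < vr) (hvr : vr ≤ 0) (hvi : vi ≤ 0)
    (hC1 : C ≤ 1) (hS : 0 ≤ S) : 0 < c + (C * vr - S * vi) := by
  have h1 := mul_nonneg hS (neg_nonneg.mpr hvi)
  have h2 := mul_nonneg (sub_nonneg.mpr hC1) (neg_nonneg.mpr hvr)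
  nlinarith

theorem real2 {c Ur Ui C S C' S' : ℝ} (hUr : Ur ≤ 0) (hUi : 0 ≤ Ui) (hC : C' ≤ C) (hS : S ≤ S')
    (h : 0 < c + (C * Ur - -S * Ui)) : 0 < c + (C' * Ur - -S' * Ui) := by
  have h1 := mul_nonneg (sub_nonneg.mpr hC) (neg_nonneg.mpr hUr)
  have h2 := mul_nonneg (sub_nonneg.mpr hS) hUi
  nlinarith

theorem real3 {c zr zi C S : ℝ} (hc : 0.03 < c) (hzr : 0 ≤ zr) (hzi : zi ≤ 0.03)
    (hC : 0 ≤ C) (hS0 : 0 ≤ S) (hS : S ≤ 1) : 0 < c + (C * zr - S * zi) := by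
  have h1 := mul_nonneg hC hzr
  have h2 : S * zi ≤ 0.03 := by
    calc S * zi ≤ S * 0.03 := mul_le_mul_of_nonneg_left hzi hS0
      _ ≤ 1 * 0.03 := mul_le_mul_of_nonneg_right hS (by norm_num)
      _ = 0.03 := by norm_num
  linarith

/-- all sign conditions for the half orbit -/
theorem signs {q : ℂ} {T : ℝ} {k : ℕ} {η : ℝ} (hk : 1 ≤ k) (hqn : ‖q‖ = 1) (g : Good q)
    (hT0 : 0.6 ≤ T) (hT1 : T ≤ 0.8) (hT : q ^ (9 * k + 8) * (1 - T * I) = 1 + T * I)
    (hη : 0 ≤ η) (hkη : k * η ≤ Real.pi / 2) (h9 : q ^ 9 = Complex.exp (η * I))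
    (hu : (uf q T).re < 0)
    (hp : 0 < (c2 q + Complex.exp (-(η * I)) * (af q * (1 + T * I))).re) :
    ∀ j < 3 * (3 * k + 1) + 5, (Wc q (wf q T) (3 * k + 1) j).re * (e (3 * k + 1) j : ℝ) < 0 := by
  obtain ⟨E1, E2, E3, -⟩ := Wc_end g.q0 g.q3 hT
  set N := 3 * k + 1 with hN
  set v := bf q * (1 - T * I) with hv
  have hvn : ‖v‖ ≤ 0.2 := norm_v g hT0 hT1
  have hveq : q ^ 2 * (wf q T - c0 q) = v := v_eq g.q0
  have hn0 : ‖wf q T - c0 q‖ ≤ 0.2 := by
    rw [← hveq, norm_mul, norm_pow, hqn] at hvn; simpa using hvn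
  have A0 : ∀ i ≤ N, (Wc q (wf q T) N (3 * i)).re < 0 := by
    intro i hi
    rw [Wc_0 N g.q3 i hi, Complex.add_re]
    have h1 := (re_abs_le (q ^ (3 * i) * (wf q T - c0 q))).2
    rw [norm_mul, norm_pow, hqn, one_pow, one_mul] at h1
    have := g.c0r
    linarith
  have A1 : ∀ i ≤ N, 0 < (Wc q (wf q T) N (3 * i + 1)).re := by
    intro i hi
    rw [Wc_1 N g.q3 i hi, Complex.add_re]
    have h1 := (re_abs_le (q ^ (3 * i) * (q * (wf q T - c0 q)))).1
    rw [norm_mul, norm_mul, norm_pow, hqn, one_pow, one_mul, one_mul] at h1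
    have := g.c1r
    linarith
  have hvr : v.re = (bf q).re + T * (bf q).im := re_one_sub _ _
  have hvi : v.im = (bf q).im - T * (bf q).re := im_one_sub _ _
  have gc2 := g.c2r
  have gbr := g.br
  have gbr' := g.br'
  have gbi := g.bi
  have gbi' := g.bi'
  have hkη' : ∀ m : ℕ, m ≤ k → 0 ≤ (m : ℝ) * η ∧ (m : ℝ) * η ≤ Real.pi / 2 := by
    intro m hm
    have : (m : ℝ) ≤ k := by exact_mod_cast hm
    exact ⟨by positivity, le_trans (mul_le_mul_of_nonneg_right this hη) hkη⟩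
  have hcs : ∀ θ : ℝ, 0 ≤ θ → θ ≤ Real.pi / 2 →
      0 ≤ Real.cos θ ∧ Real.cos θ ≤ 1 ∧ 0 ≤ Real.sin θ ∧ Real.sin θ ≤ 1 := by
    intro θ h1 h2
    exact ⟨Real.cos_nonneg_of_neg_pi_div_two_le_of_le (by linarith [Real.pi_pos]) h2,
      Real.cos_le_one θ, Real.sin_nonneg_of_nonneg_of_le_pi h1 (by linarith [Real.pi_pos]),
      Real.sin_le_one θ⟩
  have A2 : ∀ i < N, 0 < (Wc q (wf q T) N (3 * i + 2)).re := by
    intro i hi
    rw [Wc_2 N g.q3 i hi.le, hveq]
    obtain ⟨m, r, hr, hmr⟩ : ∃ m r, r < 3 ∧ i = 3 * m + r :=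
      ⟨i / 3, i % 3, Nat.mod_lt _ (by norm_num), (Nat.div_add_mod _ _).symm⟩
    interval_cases r
    · -- i = 3m
      have hm : m ≤ k := by omega
      rw [hmr, show 3 * (3 * m + 0) = 9 * m by ring, q9m h9, Complex.add_re, re_rot]
      obtain ⟨h1, h2⟩ := hkη' m hm
      obtain ⟨k1, k2, k3, k4⟩ := hcs _ h1 h2
      obtain ⟨b1, b2⟩ := prod_bounds (x := T) (y := -(bf q).im) (c := 0.105) (d := 0.108)
        (by norm_num) (by norm_num) hT0 hT1 (by linarith) (by linarith)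
      norm_num at b1 b2
      have hvr0 : v.re ≤ 0 := by rw [hvr]; linarith
      have hvi0 : v.im ≤ 0 := by
        rw [hvi]
        have := abs_le.mp (show |T * (bf q).re| ≤ 0.1 by
          rw [abs_mul]
          have h1 : |T| ≤ 0.8 := abs_le.mpr ⟨by linarith, by linarith⟩
          have h2 : |(bf q).re| ≤ 0.1 := abs_le.mpr ⟨by linarith, by linarith⟩
          nlinarith [abs_nonneg T, abs_nonneg (bf q).re])
        linarith [this.1]
      exact real1 (by rw [hvr]; linarith) hvr0 hvi0 k2 k3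
    · -- i = 3m+1
      have hm : m < k := by omega
      have hU := U_eq g.q0 hT
      rw [← hv] at hU
      have hrot : q ^ (3 * i) * v = Complex.exp (-(((k - m : ℕ) * η : ℝ) * I)) * (af q * (1 + T * I)) := by
        rw [← hU, show 3 * (3 * k + 1) = 9 * (k - m) + 3 * i by omega, pow_add, pow_mul q 9 (k - m), h9,
          ← Complex.exp_nat_mul]
        have hee : Complex.exp (-(((k - m : ℕ) * η : ℝ) * I)) *
            Complex.exp (((k - m : ℕ) : ℂ) * (η * I)) = 1 := by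
          rw [← Complex.exp_add]
          rw [show -((((k - m : ℕ) * η : ℝ) : ℂ) * I) + ((k - m : ℕ) : ℂ) * (η * I) = 0 by
            push_cast; ring]
          exact Complex.exp_zero
        linear_combination (-(q ^ (3 * i) * v)) * hee
      have hexp : ∀ θ : ℝ, Complex.exp (-((θ : ℂ) * I)) = (Real.cos (-θ) : ℂ) + (Real.sin (-θ) : ℂ) * I := by
        intro θ
        rw [show -((θ : ℂ) * I) = ((-θ : ℝ) : ℂ) * I by push_cast; ring, Complex.exp_mul_I]
        push_cast; ring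
      rw [hrot, Complex.add_re, hexp, re_rot, Real.cos_neg, Real.sin_neg]
      rw [Complex.add_re, hexp, re_rot, Real.cos_neg, Real.sin_neg] at hp
      have hUr : (af q * (1 + T * I)).re ≤ 0 := by
        rw [re_one_add]
        have h1 := g.ar'; have h2 := g.ai
        have := mul_nonneg (by linarith : (0 : ℝ) ≤ T) (by linarith : (0 : ℝ) ≤ (af q).im)
        linarith
      have hUi : 0 ≤ (af q * (1 + T * I)).im := by
        rw [im_one_add]
        have h1 := g.ar; have h2 := g.ai; have h3 := g.ar'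
        have := mul_le_mul hT1 (by linarith : -(af q).re ≤ 0.038) (by linarith) (by norm_num)
        linarith
      have hkm : 1 ≤ k - m := by omega
      have hle : η ≤ ((k - m : ℕ) : ℝ) * η := by
        have : (1 : ℝ) ≤ ((k - m : ℕ) : ℝ) := by exact_mod_cast hkm
        nlinarith
      have hle2 : ((k - m : ℕ) : ℝ) * η ≤ Real.pi / 2 := (hkη' (k - m) (by omega)).2
      have hc : Real.cos (((k - m : ℕ) : ℝ) * η) ≤ Real.cos η :=
        Real.cos_le_cos_of_nonneg_of_le_pi hη (by linarith [Real.pi_pos]) hle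
      have hs : Real.sin η ≤ Real.sin (((k - m : ℕ) : ℝ) * η) :=
        Real.sin_le_sin_of_le_of_le_pi_div_two (by linarith [Real.pi_pos]) hle2 hle
      exact real2 hUr hUi hc hs hp
    · -- i = 3m+2
      have hm : m ≤ k := by omega
      rw [hmr, show 3 * (3 * m + 2) = 9 * m + 6 by ring, pow_add, mul_assoc, q9m h9,
        Complex.add_re, re_rot]
      obtain ⟨h1, h2⟩ := hkη' m hm
      obtain ⟨k1, k2, k3, k4⟩ := hcs _ h1 h2
      have hz : q ^ 6 * v = (q ^ 6 * bf q) * (1 - T * I) := by rw [hv]; ring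
      rw [hz, re_one_sub, im_one_sub]
      have g1 := g.zr; have g2 := g.zr'; have g3 := g.zi; have g4 := g.zi'
      have hzr : 0 ≤ (q ^ 6 * bf q).re + T * (q ^ 6 * bf q).im := by
        have := mul_nonneg (by linarith : (0 : ℝ) ≤ T) (by linarith : (0 : ℝ) ≤ (q ^ 6 * bf q).im)
        linarith
      have hzi : (q ^ 6 * bf q).im - T * (q ^ 6 * bf q).re ≤ 0.03 := by
        have := mul_le_mul hT0 g1.le (by norm_num) (by linarith)
        linarith
      exact real3 (by linarith) hzr hzi k1 k3 k4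
  obtain ⟨hx0, hW4⟩ := tail_num g hT0 hT1
  intro j hj
  by_cases hj2 : j < 3 * N + 2
  · obtain ⟨i, r, hr, hir⟩ : ∃ i r, r < 3 ∧ j = 3 * i + r :=
      ⟨j / 3, j % 3, Nat.mod_lt _ (by norm_num), (Nat.div_add_mod _ _).symm⟩
    interval_cases r
    · rw [hir, add_zero, e_0 N i (by omega)]
      have := A0 i (by omega)
      push_cast; linarith
    · rw [hir, e_1 N i (by omega)]
      have := A1 i (by omega)
      push_cast; linarith
    · rw [hir, e_2 N i (by omega)]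
      have := A2 i (by omega)
      push_cast; linarith
  · have : j = 3 * N + 2 ∨ j = 3 * N + 3 ∨ j = 3 * N + 4 := by omega
    rcases this with h | h | h
    · rw [h, e_3, E1]; push_cast; linarith
    · rw [h, e_4, E2]; push_cast; linarith
    · rw [h, e_5, E3]; push_cast; linarith

end Q67.GreedyFamily
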