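import Mathlib
import Pool.Agent.Q67.GreedyFamily2

/-! Numerical enclosures at `q = e^{-2 π i / 9}`. -/

namespace Q67.GreedyFamily

open Complex

theorem C_bounds : 0.76604 < Real.cos (2 * Real.pi / 9) ∧ Real.cos (2 * Real.pi / 9) < 0.76605 := by
  have h3 : Real.cos (3 * (2 * Real.pi / 9)) = -(1 / 2) := by
    rw [show 3 * (2 * Real.pi / 9) = Real.pi - Real.pi / 3 by ring, Real.cos_pi_sub,
      Real.cos_pi_div_three]
  rw [Real.cos_three_mul] at h3
  have h7 : 0.7 ≤ Real.cos (2 * Real.pi / 9) := by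
    have h := Real.cos_le_cos_of_nonneg_of_le_pi (x := 2 * Real.pi / 9) (y := Real.pi / 4)
      (by positivity) (by linarith [Real.pi_pos]) (by linarith [Real.pi_pos])
    rw [Real.cos_pi_div_four] at h
    have h2 : 1.4 ≤ Real.sqrt 2 := Real.le_sqrt_of_sq_le (by norm_num)
    linarith
  have h1 := Real.cos_le_one (2 * Real.pi / 9)
  generalize Real.cos (2 * Real.pi / 9) = C at h3 h7 h1 ⊢
  constructor
  · by_contra h
    push Not at h
    nlinarith [mul_nonneg (sub_nonneg.mpr h) (sub_nonneg.mpr h7),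
      mul_nonneg (sub_nonneg.mpr h) (mul_nonneg (by linarith : (0 : ℝ) ≤ C) (by linarith : (0 : ℝ) ≤ C))]
  · by_contra h
    push Not at h
    nlinarith [mul_nonneg (sub_nonneg.mpr h) (sub_nonneg.mpr h7),
      mul_nonneg (sub_nonneg.mpr h) (mul_nonneg (by linarith : (0 : ℝ) ≤ C) (by linarith : (0 : ℝ) ≤ C))]

theorem S_bounds : 0.64277 < Real.sin (2 * Real.pi / 9) ∧ Real.sin (2 * Real.pi / 9) < 0.6428 := by
  have hC := C_bounds
  have hs : 0 < Real.sin (2 * Real.pi / 9) :=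
    Real.sin_pos_of_pos_of_lt_pi (by positivity) (by linarith [Real.pi_pos])
  have h := Real.sin_sq_add_cos_sq (2 * Real.pi / 9)
  generalize Real.cos (2 * Real.pi / 9) = C at *
  generalize Real.sin (2 * Real.pi / 9) = S at *
  constructor <;> nlinarith

theorem r_bounds : 1.73205 < Real.sqrt 3 ∧ Real.sqrt 3 < 1.73206 := by
  constructor
  · exact Real.lt_sqrt_of_sq_lt (by norm_num)
  · rw [Real.sqrt_lt' (by norm_num)]; norm_num

set_option maxHeartbeats 4000000 in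
/-- real-number part of the enclosures -/
theorem real_part {C S r : ℝ} (hC : 0.76604 < C ∧ C < 0.76605) (hS : 0.64277 < S ∧ S < 0.6428)
    (hr : 1.73205 < r ∧ r < 1.73206) (x y m n ar ai : ℝ)
    (hx : x = (3 / 2 * (1 / 2 + (C * C - S * S) - C) + r / 2 * (r / 2 - 2 * (C * S) + S)) / 3)
    (hy : y = (3 / 2 * (r / 2 - 2 * (C * S) + S) - r / 2 * (1 / 2 + (C * C - S * S) - C)) / 3)
    (har : ar = (C - 1 - (x * (1 + (C * C - S * S)) - y * (2 * (C * S)))) / 2)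
    (hai : ai = (S - (x * (2 * (C * S)) + y * (1 + (C * C - S * S)))) / 2)
    (hm : m = ar * (C * C - S * S) + ai * (2 * (C * S)))
    (hn : n = ai * (C * C - S * S) - ar * (2 * (C * S))) :
    (0.1049 ≤ x ∧ x ≤ 0.1053) ∧ (0.2884 ≤ y ∧ y ≤ 0.2889) ∧ (-0.037 ≤ ar ∧ ar ≤ -0.036) ∧
    (0.0998 ≤ ai ∧ ai ≤ 0.1007) ∧ (0.0915 ≤ m ∧ m ≤ 0.0932) ∧ (0.0527 ≤ n ∧ n ≤ 0.054) ∧
    (-0.0015 ≤ -m / 2 + r * n / 2 ∧ -m / 2 + r * n / 2 ≤ 0.0015) ∧
    (-0.1078 ≤ -n / 2 - r * m / 2 ∧ -n / 2 - r * m / 2 ≤ -0.1055) := by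
  obtain ⟨a1, a2⟩ := prod_bounds (x := C) (y := C) (by norm_num) (by norm_num) hC.1.le hC.2.le
    hC.1.le hC.2.le
  obtain ⟨a3, a4⟩ := prod_bounds (x := S) (y := S) (by norm_num) (by norm_num) hS.1.le hS.2.le
    hS.1.le hS.2.le
  obtain ⟨a5, a6⟩ := prod_bounds (x := C) (y := S) (by norm_num) (by norm_num) hC.1.le hC.2.le
    hS.1.le hS.2.le
  obtain ⟨C1, C2⟩ := hC
  obtain ⟨S1, S2⟩ := hS
  obtain ⟨R1, R2⟩ := hr
  norm_num at a1 a2 a3 a4 a5 a6
  generalize C * C = CC at *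
  generalize S * S = SS at *
  generalize C * S = CS at *
  -- N_i and -N_r
  obtain ⟨b1, b2⟩ := prod_bounds (x := r) (y := r / 2 - 2 * CS + S) (c := 0.5239) (d := 0.5242)
    (by norm_num) (by norm_num) R1.le R2.le (by linarith) (by linarith)
  obtain ⟨b3, b4⟩ := prod_bounds (x := r) (y := -(1 / 2 + (CC - SS) - C)) (c := 0.0923) (d := 0.0925)
    (by norm_num) (by norm_num) R1.le R2.le (by linarith) (by linarith)
  norm_num at b1 b2 b3 b4
  have X1 : 0.1049 ≤ x := by rw [hx]; linarith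
  have X2 : x ≤ 0.1053 := by rw [hx]; linarith
  have Y1 : 0.2884 ≤ y := by rw [hy]; linarith
  have Y2 : y ≤ 0.2889 := by rw [hy]; linarith
  obtain ⟨c1, c2⟩ := prod_bounds (x := x) (y := 1 + (CC - SS)) (c := 1.1736) (d := 1.1737)
    (by norm_num) (by norm_num) X1 X2 (by linarith) (by linarith)
  obtain ⟨c3, c4⟩ := prod_bounds (x := y) (y := 1 + (CC - SS)) (c := 1.1736) (d := 1.1737)
    (by norm_num) (by norm_num) Y1 Y2 (by linarith) (by linarith)
  obtain ⟨c5, c6⟩ := prod_bounds (x := x) (y := 2 * CS) (c := 0.9847) (d := 0.9849)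
    (by norm_num) (by norm_num) X1 X2 (by linarith) (by linarith)
  obtain ⟨c7, c8⟩ := prod_bounds (x := y) (y := 2 * CS) (c := 0.9847) (d := 0.9849)
    (by norm_num) (by norm_num) Y1 Y2 (by linarith) (by linarith)
  norm_num at c1 c2 c3 c4 c5 c6 c7 c8
  have Ar1 : -0.037 ≤ ar := by rw [har]; linarith
  have Ar2 : ar ≤ -0.036 := by rw [har]; linarith
  have Ai1 : 0.0998 ≤ ai := by rw [hai]; linarith
  have Ai2 : ai ≤ 0.1007 := by rw [hai]; linarith
  obtain ⟨d1, d2⟩ := prod_bounds (x := -ar) (y := CC - SS) (a := 0.036) (b := 0.037)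
    (c := 0.1736) (d := 0.1737)
    (by norm_num) (by norm_num) (by linarith) (by linarith) (by linarith) (by linarith)
  obtain ⟨d3, d4⟩ := prod_bounds (x := ai) (y := 2 * CS) (c := 0.9847) (d := 0.9849)
    (by norm_num) (by norm_num) Ai1 Ai2 (by linarith) (by linarith)
  obtain ⟨d5, d6⟩ := prod_bounds (x := ai) (y := CC - SS) (c := 0.1736) (d := 0.1737)
    (by norm_num) (by norm_num) Ai1 Ai2 (by linarith) (by linarith)
  obtain ⟨d7, d8⟩ := prod_bounds (x := -ar) (y := 2 * CS) (a := 0.036) (b := 0.037)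
    (c := 0.9847) (d := 0.9849)
    (by norm_num) (by norm_num) (by linarith) (by linarith) (by linarith) (by linarith)
  norm_num at d1 d2 d3 d4 d5 d6 d7 d8
  have M1 : 0.0915 ≤ m := by rw [hm]; linarith
  have M2 : m ≤ 0.0932 := by rw [hm]; linarith
  have N1 : 0.0527 ≤ n := by rw [hn]; linarith
  have N2 : n ≤ 0.054 := by rw [hn]; linarith
  obtain ⟨f1, f2⟩ := prod_bounds (x := r) (y := n) (by norm_num) (by norm_num) R1.le R2.le N1 N2
  obtain ⟨f3, f4⟩ := prod_bounds (x := r) (y := m) (by norm_num) (by norm_num) R1.le R2.le M1 M2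
  norm_num at f1 f2 f3 f4
  refine ⟨⟨X1, X2⟩, ⟨Y1, Y2⟩, ⟨Ar1, Ar2⟩, ⟨Ai1, Ai2⟩, ⟨M1, M2⟩, ⟨N1, N2⟩,
    ⟨by linarith, by linarith⟩, ⟨by linarith, by linarith⟩⟩

noncomputable def Q (α : ℝ) : ℂ := Complex.exp (-(2 * (Real.pi : ℂ) * Complex.I * (α : ℂ)))

theorem Q_ninth : Q (1 / 9) = ⟨Real.cos (2 * Real.pi / 9), -Real.sin (2 * Real.pi / 9)⟩ := by
  have : -(2 * (Real.pi : ℂ) * Complex.I * ((1 / 9 : ℝ) : ℂ))
      = ((-(2 * Real.pi / 9) : ℝ) : ℂ) * I := by push_cast; ring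
  rw [Q, this, Complex.exp_mul_I, ← Complex.ofReal_cos, ← Complex.ofReal_sin, Real.cos_neg,
    Real.sin_neg]
  generalize Real.cos (2 * Real.pi / 9) = C
  generalize Real.sin (2 * Real.pi / 9) = S
  apply Complex.ext <;> simp

theorem Q_ninth_cube : Q (1 / 9) ^ 3 = ⟨-(1 / 2), -(Real.sqrt 3 / 2)⟩ := by
  have : (3 : ℕ) * (-(2 * (Real.pi : ℂ) * Complex.I * ((1 / 9 : ℝ) : ℂ)))
      = ((-(Real.pi - Real.pi / 3) : ℝ) : ℂ) * I := by push_cast; ring
  rw [Q, ← Complex.exp_nat_mul, this, Complex.exp_mul_I, ← Complex.ofReal_cos,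
    ← Complex.ofReal_sin, Real.cos_neg,
    Real.sin_neg, Real.cos_pi_sub, Real.sin_pi_sub, Real.cos_pi_div_three, Real.sin_pi_div_three]
  apply Complex.ext <;> simp

set_option maxHeartbeats 4000000 in
theorem good_ninth : Good (Q (1 / 9)) := by
  have hC := C_bounds
  have hS := S_bounds
  have hr := r_bounds
  have h1 := Q_ninth
  have h3 := Q_ninth_cube
  have hr2 : Real.sqrt 3 * Real.sqrt 3 = 3 := Real.mul_self_sqrt (by norm_num)
  have hCS := Real.sin_sq_add_cos_sq (2 * Real.pi / 9)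
  generalize Real.cos (2 * Real.pi / 9) = C at *
  generalize Real.sin (2 * Real.pi / 9) = S at *
  generalize Real.sqrt 3 = r at *
  generalize Q (1 / 9) = q at *
  obtain ⟨x, hx⟩ : ∃ x, x = (3 / 2 * (1 / 2 + (C * C - S * S) - C)
    + r / 2 * (r / 2 - 2 * (C * S) + S)) / 3 := ⟨_, rfl⟩
  obtain ⟨y, hy⟩ : ∃ y, y = (3 / 2 * (r / 2 - 2 * (C * S) + S)
    - r / 2 * (1 / 2 + (C * C - S * S) - C)) / 3 := ⟨_, rfl⟩
  obtain ⟨ar, har⟩ : ∃ ar, ar = (C - 1 - (x * (1 + (C * C - S * S)) - y * (2 * (C * S)))) / 2 :=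
    ⟨_, rfl⟩
  obtain ⟨ai, hai⟩ : ∃ ai, ai = (S - (x * (2 * (C * S)) + y * (1 + (C * C - S * S)))) / 2 :=
    ⟨_, rfl⟩
  obtain ⟨m, hm⟩ : ∃ m, m = ar * (C * C - S * S) + ai * (2 * (C * S)) := ⟨_, rfl⟩
  obtain ⟨n, hn⟩ : ∃ n, n = ai * (C * C - S * S) - ar * (2 * (C * S)) := ⟨_, rfl⟩
  obtain ⟨⟨X1, X2⟩, ⟨Y1, Y2⟩, ⟨Ar1, Ar2⟩, ⟨Ai1, Ai2⟩, ⟨M1, M2⟩, ⟨N1, N2⟩, ⟨B1, B2⟩, ⟨B3, B4⟩⟩ :=
    real_part hC hS hr x y m n ar ai hx hy har hai hm hn
  have hq0 : q ≠ 0 := by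
    rw [h1]; intro h
    have := congrArg Complex.re h
    simp at this; linarith [hC.1]
  have hq3 : 1 - q ^ 3 ≠ 0 := by
    rw [h3]; intro h
    have := congrArg Complex.re h
    simp at this; norm_num at this
  have h2 : q ^ 2 = ⟨C * C - S * S, -(2 * (C * S))⟩ := by
    rw [h1]
    apply Complex.ext
    · simp [pow_two]
    · simp [pow_two]; ring
  have h33 : q ^ 3 * q ^ 3 * q ^ 3 = 1 := by
    rw [h3]
    apply Complex.ext
    · simp; nlinarith
    · simp; nlinarith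
  have hc2 : c2 q = ⟨x, y⟩ := by
    unfold c2
    rw [div_eq_iff hq3, h3, h2, h1]
    apply Complex.ext
    · simp
      rw [hx, hy]
      linear_combination (1 / 2 + (C * C - S * S) - C) * (-(1 / 12)) * hr2
    · simp
      rw [hx, hy]
      linear_combination (r / 2 - 2 * (C * S) + S) * (-(1 / 12)) * hr2
  have hqb : q * ⟨C, S⟩ = 1 := by
    rw [h1]
    apply Complex.ext
    · simp; linear_combination hCS
    · simp; ring
  have hA : (⟨ar, ai⟩ : ℂ) = ((⟨C, S⟩ : ℂ) - 1 - c2 q * (1 + (⟨C, S⟩ : ℂ) ^ 2)) / 2 := by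
    rw [hc2]
    have h22 : (⟨C, S⟩ : ℂ) ^ 2 = ⟨C * C - S * S, 2 * (C * S)⟩ := by
      apply Complex.ext
      · simp [pow_two]
      · simp [pow_two]; ring
    rw [h22, eq_div_iff (by norm_num)]
    apply Complex.ext
    · simp; rw [har]; ring
    · simp; rw [hai]; ring
  have hbf : bf q = q ^ 5 * ⟨ar, ai⟩ := by
    rw [hA]
    unfold bf
    generalize (⟨C, S⟩ : ℂ) = z at hqb
    linear_combination (q ^ 4 * (-(1 / 2)) + c2 q * (q ^ 4 * z + q ^ 3) / 2) * hqb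
  have haf : af q = ⟨ar, ai⟩ := by
    unfold af; rw [hbf]; field_simp
  have hmn : q ^ 2 * ⟨ar, ai⟩ = (⟨m, n⟩ : ℂ) := by
    rw [h2]
    apply Complex.ext
    · simp; rw [hm]; ring
    · simp; rw [hn]; ring
  have hz : q ^ 6 * bf q = ⟨m, n⟩ := by
    rw [hbf, ← hmn]
    linear_combination (q ^ 2 * ⟨ar, ai⟩) * h33
  have hb : bf q = ⟨-m / 2 + r * n / 2, -n / 2 - r * m / 2⟩ := by
    have : bf q = q ^ 3 * ⟨m, n⟩ := by rw [hbf, ← hmn]; ring
    rw [this, h3]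
    apply Complex.ext
    · simp; ring
    · simp; ring
  have hc0 : c0 q = ⟨(x - 1) * C + y * S, -((x - 1) * S) + y * C⟩ := by
    unfold c0
    rw [hc2, h1]
    apply Complex.ext
    · simp
    · simp
  have hc1 : c1 q = ⟨((x - 1) * C + y * S + 1) * C + (-((x - 1) * S) + y * C) * S,
      -(((x - 1) * C + y * S + 1) * S) + (-((x - 1) * S) + y * C) * C⟩ := by
    unfold c1
    rw [hc0, h1]
    apply Complex.ext
    · simp
    · simp
  obtain ⟨C1, C2⟩ := hC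
  obtain ⟨S1, S2⟩ := hS
  obtain ⟨p1, p2⟩ := prod_bounds (x := 1 - x) (y := C) (a := 0.8947) (b := 0.8951)
    (by norm_num) (by norm_num) (by linarith) (by linarith) C1.le C2.le
  obtain ⟨p3, p4⟩ := prod_bounds (x := 1 - x) (y := S) (a := 0.8947) (b := 0.8951)
    (by norm_num) (by norm_num) (by linarith) (by linarith) S1.le S2.le
  obtain ⟨p5, p6⟩ := prod_bounds (x := y) (y := C)
    (by norm_num) (by norm_num) Y1 Y2 C1.le C2.le
  obtain ⟨p7, p8⟩ := prod_bounds (x := y) (y := S)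
    (by norm_num) (by norm_num) Y1 Y2 S1.le S2.le
  norm_num at p1 p2 p3 p4 p5 p6 p7 p8
  have k1 : (x - 1) * C + y * S ≤ -0.49 := by linarith
  have k2 : -0.51 ≤ (x - 1) * C + y * S := by linarith
  have k3 : 0.79 ≤ -((x - 1) * S) + y * C := by linarith
  have k4 : -((x - 1) * S) + y * C ≤ 0.80 := by linarith
  refine ⟨hq0, hq3, ?_, ?_, ?_, ?_, ?_, ?_, ?_, ?_, ?_, ?_, ?_, ?_, ?_, ?_, ?_, ?_, ?_, ?_,
    ?_, ?_, ?_, ?_⟩
  · rw [hc0]; show (x - 1) * C + y * S < _; linarith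
  · rw [hc1]
    show _ < ((x - 1) * C + y * S + 1) * C + (-((x - 1) * S) + y * C) * S
    have := prod_bounds (x := (x - 1) * C + y * S + 1) (y := C) (a := 0.49) (b := 0.51)
      (by norm_num) (by norm_num) (by linarith) (by linarith) C1.le C2.le
    have := prod_bounds (x := -((x - 1) * S) + y * C) (y := S)
      (by norm_num) (by norm_num) k3 k4 S1.le S2.le
    linarith
  · rw [hc2]; show _ < x; linarith
  · rw [hc2]; show x < _; linarith
  · rw [hc2]; show _ < y; linarith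
  · rw [hc2]; show y < _; linarith
  · rw [hb]; show _ < -m / 2 + r * n / 2; linarith
  · rw [hb]; show -m / 2 + r * n / 2 < _; linarith
  · rw [hb]; show _ < -n / 2 - r * m / 2; linarith
  · rw [hb]; show -n / 2 - r * m / 2 < _; linarith
  · rw [haf]; show _ < ar; linarith
  · rw [haf]; show ar < _; linarith
  · rw [haf]; show _ < ai; linarith
  · rw [haf]; show ai < _; linarith
  · rw [hz]; show _ < m; linarith
  · rw [hz]; show m < _; linarith
  · rw [hz]; show _ < n; linarith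
  · rw [hz]; show n < _; linarith
  · rw [h1]; show _ < C; linarith
  · rw [h1]; show C < _; linarith
  · rw [h1]; show _ < -S; linarith
  · rw [h1]; show -S < _; linarith

end Q67.GreedyFamily
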