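import Mathlib
import Pool.Agent.Q67.GreedyFamily3

/-! Existence of long periods. -/

namespace Q67.GreedyFamily

open Q67.GreedyWalk Complex Filter Topology

theorem Q_cont : Continuous Q := by
  unfold Q; fun_prop

theorem Q_norm (α : ℝ) : ‖Q α‖ = 1 := by
  rw [Q, show -(2 * (Real.pi : ℂ) * Complex.I * (α : ℂ)) = ((-(2 * Real.pi * α) : ℝ) : ℂ) * I by
    push_cast; ring, Complex.norm_exp_ofReal_mul_I]

theorem Q_mul (α : ℝ) : Q α * Complex.exp (2 * (Real.pi : ℂ) * Complex.I * (α : ℂ)) = 1 := by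
  rw [Q, ← Complex.exp_add]; simp

theorem c2_contAt {q : ℂ} (h3 : 1 - q ^ 3 ≠ 0) : ContinuousAt c2 q := by
  unfold c2
  exact ContinuousAt.div (by fun_prop) (by fun_prop) h3

theorem bf_contAt {q : ℂ} (h3 : 1 - q ^ 3 ≠ 0) : ContinuousAt bf q := by
  unfold bf
  have := c2_contAt h3
  fun_prop

theorem af_contAt {q : ℂ} (h0 : q ≠ 0) (h3 : 1 - q ^ 3 ≠ 0) : ContinuousAt af q := by
  unfold af
  exact ContinuousAt.div (bf_contAt h3) (by fun_prop) (pow_ne_zero _ h0)

theorem c0_contAt {q : ℂ} (h3 : 1 - q ^ 3 ≠ 0) : ContinuousAt c0 q := by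
  unfold c0
  have := c2_contAt h3
  fun_prop

theorem c1_contAt {q : ℂ} (h3 : 1 - q ^ 3 ≠ 0) : ContinuousAt c1 q := by
  unfold c1
  have := c0_contAt h3
  fun_prop

theorem good_nhds {q : ℂ} (g : Good q) : ∀ᶠ p in 𝓝 q, Good p := by
  have hre : ∀ {f : ℂ → ℂ}, ContinuousAt f q → ContinuousAt (fun p => (f p).re) q :=
    fun h => Complex.continuous_re.continuousAt.comp h
  have him : ∀ {f : ℂ → ℂ}, ContinuousAt f q → ContinuousAt (fun p => (f p).im) q :=
    fun h => Complex.continuous_im.continuousAt.comp h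
  have up : ∀ {f : ℂ → ℝ} {c : ℝ}, ContinuousAt f q → f q < c → ∀ᶠ p in 𝓝 q, f p < c :=
    fun h h' => h.eventually (gt_mem_nhds h')
  have lo : ∀ {f : ℂ → ℝ} {c : ℝ}, ContinuousAt f q → c < f q → ∀ᶠ p in 𝓝 q, c < f p :=
    fun h h' => h.eventually (lt_mem_nhds h')
  have k0 := c0_contAt g.q3
  have k1 := c1_contAt g.q3
  have k2 := c2_contAt g.q3
  have kb := bf_contAt g.q3
  have ka := af_contAt g.q0 g.q3
  have kz : ContinuousAt (fun p => p ^ 6 * bf p) q := by fun_prop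
  have kq : ContinuousAt (fun p : ℂ => p) q := continuousAt_id
  filter_upwards [kq.eventually_ne g.q0,
    (show ContinuousAt (fun p : ℂ => 1 - p ^ 3) q by fun_prop).eventually_ne g.q3,
    up (hre k0) g.c0r, lo (hre k1) g.c1r, lo (hre k2) g.c2r, up (hre k2) g.c2r',
    lo (him k2) g.c2i, up (him k2) g.c2i', lo (hre kb) g.br, up (hre kb) g.br',
    lo (him kb) g.bi, up (him kb) g.bi', lo (hre ka) g.ar, up (hre ka) g.ar',
    lo (him ka) g.ai, up (him ka) g.ai', lo (hre kz) g.zr, up (hre kz) g.zr',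
    lo (him kz) g.zi, up (him kz) g.zi', lo (hre kq) g.qr, up (hre kq) g.qr',
    lo (him kq) g.qi, up (him kq) g.qi'] with p h1 h2 h3 h4 h5 h6 h7 h8 h9 h10 h11 h12 h13 h14 h15
    h16 h17 h18 h19 h20 h21 h22 h23 h24
  exact ⟨h1, h2, h3, h4, h5, h6, h7, h8, h9, h10, h11, h12, h13, h14, h15,
    h16, h17, h18, h19, h20, h21, h22, h23, h24⟩

theorem exists_eps : ∃ ε > 0, ε ≤ (1 : ℝ) / 100 ∧ ∀ α : ℝ, |α - 1 / 9| < ε → Good (Q α) := by
  have h : ∀ᶠ α in 𝓝 (1 / 9 : ℝ), Good (Q α) :=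
    Q_cont.continuousAt.eventually (good_nhds good_ninth)
  rw [Metric.eventually_nhds_iff] at h
  obtain ⟨ε, he, h⟩ := h
  refine ⟨min ε (1 / 100), by positivity, min_le_right _ _, fun α hα => h ?_⟩
  rw [Real.dist_eq]
  exact lt_of_lt_of_le hα (min_le_left _ _)

/-- the parameter as a function of `T` -/
noncomputable def al (k : ℕ) (T : ℝ) : ℝ :=
  1 / 9 - (Real.arctan T - Real.pi / 9) / (Real.pi * (9 * k + 8))

theorem al_cont (k : ℕ) : Continuous (al k) := by
  unfold al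
  fun_prop

theorem al_inj (k : ℕ) : Function.Injective (al k) := by
  intro a b h
  unfold al at h
  have hpos : 0 < Real.pi * (9 * k + 8) := by positivity
  have : (Real.arctan a - Real.pi / 9) / (Real.pi * (9 * k + 8))
      = (Real.arctan b - Real.pi / 9) / (Real.pi * (9 * k + 8)) := by linarith
  rw [div_left_inj' hpos.ne'] at this
  exact Real.arctan_injective (by linarith)

theorem tan_small : Real.pi / 9 < Real.arctan 0.6 := by
  have h1 : Real.pi / 9 < 0.35 := by linarith [Real.pi_lt_d2]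
  have h2 : Real.tan (Real.pi / 9) < 0.6 := by
    rw [Real.tan_eq_sin_div_cos]
    have hs : Real.sin (Real.pi / 9) < 0.35 := lt_of_lt_of_le (Real.sin_lt (by positivity)) h1.le
    have hc : 0.9 < Real.cos (Real.pi / 9) := by
      have h := Real.one_sub_sq_div_two_le_cos (x := Real.pi / 9)
      have : 0 < Real.pi / 9 := by positivity
      nlinarith
    rw [div_lt_iff₀ (by linarith)]
    linarith
  have h3 : Real.arctan (Real.tan (Real.pi / 9)) = Real.pi / 9 :=
    Real.arctan_tan (by linarith [Real.pi_pos]) (by linarith [Real.pi_pos])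
  rw [← h3]
  exact Real.arctan_strictMono h2

theorem arctan_bounds {T : ℝ} (h0 : 0.6 ≤ T) (h1 : T ≤ 0.8) :
    Real.pi / 9 < Real.arctan T ∧ Real.arctan T < Real.pi / 4 := by
  constructor
  · exact lt_of_lt_of_le tan_small (Real.arctan_strictMono.monotone h0)
  · rw [← Real.arctan_one]; exact Real.arctan_strictMono (by linarith)

/-- the slow angle -/
noncomputable def et (k : ℕ) (T : ℝ) : ℝ := 18 * (Real.arctan T - Real.pi / 9) / (9 * k + 8)

theorem et_cont (k : ℕ) : Continuous (et k) := by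
  unfold et
  fun_prop

theorem Q_nine (k : ℕ) (T : ℝ) : Q (al k T) ^ 9 = Complex.exp (et k T * I) := by
  rw [Q, ← Complex.exp_nat_mul]
  have hpi : (Real.pi : ℂ) ≠ 0 := by exact_mod_cast Real.pi_ne_zero
  have hk : (9 * (k : ℂ) + 8) ≠ 0 := by
    have : (9 * (k : ℝ) + 8) ≠ 0 := by positivity
    exact_mod_cast this
  have : ((9 : ℕ) : ℂ) * -(2 * (Real.pi : ℂ) * I * (al k T : ℂ))
      = (et k T : ℂ) * I + ((-1 : ℤ) : ℂ) * (2 * Real.pi * I) := by
    unfold al et
    push_cast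
    field_simp
    ring
  rw [this, Complex.exp_add, Complex.exp_int_mul_two_pi_mul_I, mul_one]

theorem Q_h (k : ℕ) (T : ℝ) : Q (al k T) ^ (9 * k + 8) * (1 - T * I) = 1 + T * I := by
  have h1 : Q (al k T) ^ (9 * k + 8) = Complex.exp ((2 * Real.arctan T : ℝ) * I) := by
    rw [Q, ← Complex.exp_nat_mul]
    have hpi : (Real.pi : ℂ) ≠ 0 := by exact_mod_cast Real.pi_ne_zero
    have hk : (9 * (k : ℂ) + 8) ≠ 0 := by
      have : (9 * (k : ℝ) + 8) ≠ 0 := by positivity
      exact_mod_cast this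
    have : ((9 * k + 8 : ℕ) : ℂ) * -(2 * (Real.pi : ℂ) * I * (al k T : ℂ))
        = ((2 * Real.arctan T : ℝ) : ℂ) * I + ((-(k + 1 : ℤ) : ℤ) : ℂ) * (2 * Real.pi * I) := by
      unfold al
      push_cast
      field_simp
      ring
    rw [this, Complex.exp_add, Complex.exp_int_mul_two_pi_mul_I, mul_one]
  set χ := Real.arctan T with hχ
  have hc : Real.cos χ ≠ 0 := (Real.cos_arctan_pos T).ne'
  have ht : T = Real.tan χ := (Real.tan_arctan T).symm
  have hs : Real.sin χ = T * Real.cos χ := by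
    rw [ht, Real.tan_mul_cos hc]
  have e1 : Complex.exp (χ * I) = (Real.cos χ : ℂ) * (1 + T * I) := by
    rw [Complex.exp_mul_I, ← Complex.ofReal_cos, ← Complex.ofReal_sin, hs]; push_cast; ring
  have e2 : Complex.exp (-(χ * I)) = (Real.cos χ : ℂ) * (1 - T * I) := by
    rw [show -((χ : ℂ) * I) = ((-χ : ℝ) : ℂ) * I by push_cast; ring,
      Complex.exp_mul_I, ← Complex.ofReal_cos, ← Complex.ofReal_sin, Real.cos_neg, Real.sin_neg, hs]
    push_cast; ring
  have e3 : Complex.exp ((2 * χ : ℝ) * I) * Complex.exp (-(χ * I)) = Complex.exp (χ * I) := by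
    rw [← Complex.exp_add]; congr 1; push_cast; ring
  rw [e1, e2] at e3
  have hc' : (Real.cos χ : ℂ) ≠ 0 := by exact_mod_cast hc
  rw [h1]
  apply mul_left_cancel₀ hc'
  rw [← e3]; ring

theorem al_bounds (k : ℕ) {T : ℝ} (h0 : 0.6 ≤ T) (h1 : T ≤ 0.8) :
    |al k T - 1 / 9| < 1 / (9 * k + 8) := by
  obtain ⟨b1, b2⟩ := arctan_bounds h0 h1
  have hpos : (0 : ℝ) < 9 * k + 8 := by positivity
  have : al k T - 1 / 9 = -((Real.arctan T - Real.pi / 9) / (Real.pi * (9 * k + 8))) := by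
    unfold al; ring
  rw [this, abs_neg, abs_of_nonneg (div_nonneg (by linarith) (by positivity)),
    div_lt_div_iff₀ (by positivity) hpos]
  nlinarith [Real.pi_pos]

theorem et_bounds (k : ℕ) {T : ℝ} (h0 : 0.6 ≤ T) (h1 : T ≤ 0.8) :
    0 < et k T ∧ k * et k T ≤ Real.pi / 2 ∧ et k T ≤ 9 / (9 * k + 8) := by
  obtain ⟨b1, b2⟩ := arctan_bounds h0 h1
  have hpos : (0 : ℝ) < 9 * k + 8 := by positivity
  refine ⟨?_, ?_, ?_⟩
  · unfold et; apply div_pos (by linarith) hpos
  · unfold et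
    rw [mul_div_assoc', div_le_iff₀ hpos]
    have : (0 : ℝ) ≤ k := by positivity
    nlinarith [Real.pi_pos]
  · unfold et
    apply div_le_div_of_nonneg_right _ hpos.le
    linarith [Real.pi_lt_d2]

end Q67.GreedyFamily
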