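import Mathlib
import Pool.Agent.Q67.GreedyFamily4

/-! Existence of long periods: the intermediate value argument. -/

namespace Q67.GreedyFamily

open Q67.GreedyWalk Complex Filter Topology

noncomputable def F (k : ℕ) (T : ℝ) : ℝ := (uf (Q (al k T)) T).re

noncomputable def P (k : ℕ) (T : ℝ) : ℝ :=
  (c2 (Q (al k T)) + Complex.exp (-(et k T * I)) * (af (Q (al k T)) * (1 + T * I))).re

theorem F_contAt {k : ℕ} {T : ℝ} (g : Good (Q (al k T))) : ContinuousAt (F k) T := by
  have h : ContinuousAt (fun T => Q (al k T)) T := (Q_cont.comp (al_cont k)).continuousAt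
  have h2 : ContinuousAt (fun T => c2 (Q (al k T))) T := ContinuousAt.comp (f := fun T => Q (al k T)) (g := c2) (x := T) (c2_contAt g.q3) h
  have h3 : ContinuousAt (fun T => af (Q (al k T))) T := ContinuousAt.comp (f := fun T => Q (al k T)) (g := af) (x := T) (af_contAt g.q0 g.q3) h
  have h4 : ContinuousAt (fun T : ℝ => uf (Q (al k T)) T) T := by
    unfold uf
    fun_prop
  exact Complex.continuous_re.continuousAt.comp h4

theorem P_contAt {k : ℕ} {T : ℝ} (g : Good (Q (al k T))) : ContinuousAt (P k) T := by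
  have h : ContinuousAt (fun T => Q (al k T)) T := (Q_cont.comp (al_cont k)).continuousAt
  have h2 : ContinuousAt (fun T => c2 (Q (al k T))) T := ContinuousAt.comp (f := fun T => Q (al k T)) (g := c2) (x := T) (c2_contAt g.q3) h
  have h3 : ContinuousAt (fun T => af (Q (al k T))) T := ContinuousAt.comp (f := fun T => Q (al k T)) (g := af) (x := T) (af_contAt g.q0 g.q3) h
  have h5 : ContinuousAt (et k) T := (et_cont k).continuousAt
  have h4 : ContinuousAt (fun T : ℝ => c2 (Q (al k T)) +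
      Complex.exp (-(et k T * I)) * (af (Q (al k T)) * (1 + T * I))) T := by
    fun_prop
  exact Complex.continuous_re.continuousAt.comp h4

theorem F_eq (k : ℕ) (T : ℝ) :
    F k T = (c2 (Q (al k T))).re + (af (Q (al k T)) * (1 + T * I)).re := by
  unfold F uf; rw [Complex.add_re]

theorem P_eq (k : ℕ) (T : ℝ) :
    P k T = (c2 (Q (al k T))).re + (Real.cos (et k T) * (af (Q (al k T)) * (1 + T * I)).re
      + Real.sin (et k T) * (af (Q (al k T)) * (1 + T * I)).im) := by
  unfold P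
  rw [Complex.add_re, show -((et k T : ℂ) * I) = ((-(et k T) : ℝ) : ℂ) * I by push_cast; ring,
    Complex.exp_mul_I, ← Complex.ofReal_cos, ← Complex.ofReal_sin, re_rot, Real.cos_neg,
    Real.sin_neg]
  ring

theorem PF {k : ℕ} (hk : 100 ≤ k) {T : ℝ} (h0 : 0.6 ≤ T) (h1 : T ≤ 0.8)
    (g : Good (Q (al k T))) : F k T < P k T ∧ P k T ≤ F k T + 0.01 := by
  obtain ⟨e1, e2, e3⟩ := et_bounds k h0 h1
  have e4 : et k T ≤ 0.01 := by
    refine e3.trans ?_
    have hk' : (100 : ℝ) ≤ k := by exact_mod_cast hk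
    rw [div_le_iff₀ (by positivity)]
    linarith
  rw [F_eq, P_eq]
  have i1 := g.ar; have i2 := g.ar'; have i3 := g.ai; have i4 := g.ai'
  have hUr : (af (Q (al k T)) * (1 + T * I)).re ≤ 0 := by
    rw [re_one_add]
    have := mul_nonneg (by linarith : (0 : ℝ) ≤ T) (by linarith : (0 : ℝ) ≤ (af (Q (al k T))).im)
    linarith
  have hUr' : -0.2 ≤ (af (Q (al k T)) * (1 + T * I)).re := by
    rw [re_one_add]
    have := mul_le_mul h1 i4.le (by linarith) (by norm_num)
    linarith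
  have hUi : 0 < (af (Q (al k T)) * (1 + T * I)).im := by
    rw [im_one_add]
    have := mul_le_mul h1 (by linarith : -(af (Q (al k T))).re ≤ 0.038) (by linarith) (by norm_num)
    linarith
  have hUi' : (af (Q (al k T)) * (1 + T * I)).im ≤ 0.2 := by
    rw [im_one_add]
    have := mul_nonneg (by linarith : (0 : ℝ) ≤ T) (by linarith : (0 : ℝ) ≤ -(af (Q (al k T))).re)
    linarith
  generalize (af (Q (al k T)) * (1 + T * I)).re = Ur at *
  generalize (af (Q (al k T)) * (1 + T * I)).im = Ui at *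
  have hs : 0 < Real.sin (et k T) :=
    Real.sin_pos_of_pos_of_lt_pi e1 (by linarith [Real.pi_gt_three])
  have hs' : Real.sin (et k T) ≤ 0.01 := (Real.sin_le e1.le).trans e4
  have hc := Real.cos_le_one (et k T)
  have hc' : 1 - 0.01 ≤ Real.cos (et k T) := by
    have := Real.one_sub_sq_div_two_le_cos (x := et k T)
    nlinarith
  have m1 := mul_pos hs hUi
  have m2 := mul_nonneg (sub_nonneg.mpr hc) (neg_nonneg.mpr hUr)
  have m3 := mul_le_mul hs' hUi' hUi.le (by norm_num)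
  have m4 := mul_le_mul (by linarith : 1 - Real.cos (et k T) ≤ 0.01) (by linarith : -Ur ≤ 0.2)
    (by linarith) (by norm_num)
  norm_num at m3 m4
  constructor
  · nlinarith
  · nlinarith

theorem exists_T {k : ℕ} (hk : 100 ≤ k) (g : ∀ T : ℝ, 0.6 ≤ T → T ≤ 0.8 → Good (Q (al k T))) :
    ∃ T : ℝ, 0.6 ≤ T ∧ T ≤ 0.8 ∧ F k T < 0 ∧ 0 < P k T ∧ Irrational (al k T) := by
  have hcont : ContinuousOn (fun T => F k T + P k T) (Set.Icc 0.6 0.8) := fun T hT =>
    ((F_contAt (g T hT.1 hT.2)).add (P_contAt (g T hT.1 hT.2))).continuousWithinAt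
  have hF6 : 0 < F k 0.6 := by
    have g6 := g 0.6 le_rfl (by norm_num)
    rw [F_eq, re_one_add]
    have i1 := g6.ar; have i4 := g6.ai'; have i5 := g6.c2r
    linarith
  have hF8 : F k 0.8 < -0.008 := by
    have g8 := g 0.8 (by norm_num) le_rfl
    rw [F_eq, re_one_add]
    have i1 := g8.ar'; have i4 := g8.ai; have i5 := g8.c2r'
    linarith
  have hP6 := (PF hk le_rfl (by norm_num) (g 0.6 le_rfl (by norm_num))).1
  have hP8 := (PF hk (by norm_num) le_rfl (g 0.8 (by norm_num) le_rfl)).2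
  have hmem : (0 : ℝ) ∈ Set.Icc (F k 0.8 + P k 0.8) (F k 0.6 + P k 0.6) :=
    ⟨by linarith, by linarith⟩
  obtain ⟨T0, hT0, hz⟩ := intermediate_value_Icc' (by norm_num) hcont hmem
  simp only at hz
  have hPF := (PF hk hT0.1 hT0.2 (g T0 hT0.1 hT0.2)).1
  have h1 : F k T0 < 0 := by linarith
  have h2 : 0 < P k T0 := by linarith
  have hne6 : T0 ≠ 0.6 := by
    intro h; rw [h] at h1; linarith
  have hne8 : T0 ≠ 0.8 := by
    intro h; rw [h] at hz; linarith
  have hlt6 : (0.6 : ℝ) < T0 := lt_of_le_of_ne hT0.1 (Ne.symm hne6)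
  have hlt8 : T0 < (0.8 : ℝ) := lt_of_le_of_ne hT0.2 hne8
  have ev : ∀ᶠ T in 𝓝 T0, F k T < 0 ∧ 0 < P k T ∧ 0.6 < T ∧ T < 0.8 := by
    filter_upwards [(F_contAt (g T0 hT0.1 hT0.2)).eventually (gt_mem_nhds h1),
      (P_contAt (g T0 hT0.1 hT0.2)).eventually (lt_mem_nhds h2), lt_mem_nhds hlt6,
      gt_mem_nhds hlt8] with T a1 a2 a3 a4
    exact ⟨a1, a2, a3, a4⟩
  obtain ⟨u, hu, huo, hTu⟩ := eventually_nhds_iff.mp ev
  have hcount : Set.Countable {T : ℝ | al k T ∈ Set.range ((↑) : ℚ → ℝ)} :=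
    (Set.countable_range _).preimage_of_injOn (al_inj k).injOn
  obtain ⟨T, hTu', hTs⟩ := (hcount.dense_compl ℝ).inter_open_nonempty u huo ⟨T0, hTu⟩
  obtain ⟨a1, a2, a3, a4⟩ := hu T hTu'
  exact ⟨T, a3.le, a4.le, a1, a2, hTs⟩

theorem main (c : ℝ) : ∃ (α : ℝ) (z : ℂ), 0 < α ∧ Irrational α ∧ Admissible α z ∧
    ∃ p : ℕ, IsLeast {p | IsEventualPeriod (sgn α z) p} p ∧
      c / |2 * α - round (2 * α)| < p := by
  obtain ⟨ε, he, he1, hgood⟩ := exists_eps
  obtain ⟨k1, hk1⟩ := exists_nat_gt (1 / ε)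
  obtain ⟨k2, hk2⟩ := exists_nat_gt (5 * |c|)
  set k := max (max k1 k2) 100 with hk
  have hk100 : 100 ≤ k := le_max_right _ _
  have hkk1 : (k1 : ℝ) ≤ k := by exact_mod_cast (le_max_left k1 k2).trans (le_max_left _ _)
  have hkk2 : (k2 : ℝ) ≤ k := by exact_mod_cast (le_max_right k1 k2).trans (le_max_left _ _)
  have hεk : 1 / (9 * (k : ℝ) + 8) < ε := by
    rw [div_lt_iff₀ (by positivity)]
    rw [div_lt_iff₀ he] at hk1
    nlinarith
  have g : ∀ T : ℝ, 0.6 ≤ T → T ≤ 0.8 → Good (Q (al k T)) := fun T h0 h1 =>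
    hgood _ ((al_bounds k h0 h1).trans hεk)
  obtain ⟨T, h0, h1, hF, hP, hirr⟩ := exists_T hk100 g
  obtain ⟨et1, et2, et3⟩ := et_bounds k h0 h1
  have hsig := signs (by omega : 1 ≤ k) (Q_norm _) (g T h0 h1) h0 h1 (Q_h k T) et1.le et2
    (Q_nine k T) hF hP
  obtain ⟨-, -, -, hend⟩ := Wc_end (g T h0 h1).q0 (g T h0 h1).q3 (Q_h k T)
  obtain ⟨hadm, hs⟩ := admissible (al k T) (Q (al k T)) (wf (Q (al k T)) T) (3 * k + 1)
    (Q_mul _) hend hsig
  have hal := (al_bounds k h0 h1).trans (hεk.trans_le he1)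
  rw [abs_lt] at hal
  refine ⟨al k T, wf (Q (al k T)) T, by linarith, hirr, hadm, ?_⟩
  have hfun : sgn (al k T) (wf (Q (al k T)) T) = s (3 * k + 1) := funext hs
  have hne : ∃ p, IsEventualPeriod (sgn (al k T) (wf (Q (al k T)) T)) p :=
    ⟨2 * (3 * (3 * k + 1) + 5), by omega, 0, fun n _ => by rw [hfun]; exact s_periodic _ _⟩
  classical
  refine ⟨Nat.find hne, ⟨Nat.find_spec hne, fun p hp => Nat.find_min' hne hp⟩, ?_⟩
  have hlarge : 3 * (3 * k + 1) ≤ Nat.find hne := by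
    have := Nat.find_spec hne
    have h' : IsEventualPeriod (s (3 * k + 1)) (Nat.find hne) := by
      rw [← hfun]; exact this
    exact period_large _ _ (by omega) h'
  have hlarge' : (3 * (3 * (k : ℝ) + 1)) ≤ (Nat.find hne : ℕ) := by exact_mod_cast hlarge
  have hround : round (2 * al k T) = 0 := by
    rw [round_eq_zero_iff]
    constructor <;> [linarith; linarith]
  rw [hround, Int.cast_zero, sub_zero, abs_of_pos (by linarith), div_lt_iff₀ (by linarith)]
  have h2 : (0.2 : ℝ) < 2 * al k T := by linarith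
  have h3 : 5 * c ≤ 5 * |c| := by linarith [le_abs_self c]
  nlinarith

end Q67.GreedyFamily
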